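import Pool.Agent.Helper12.BW.Schur

/-!
# Horizontal vectors and functionals of an irreducible connection (package C_Strong, abstract part)
-/

set_option autoImplicit false

open Polynomial Matrix Finset

namespace Pool.Agent.Helper12.CX

open Pool.Agent.Helper62.BM Pool.Agent.Helper12.BM Pool.Agent.Helper12.BW

section vec

variable {L : Type} [Field L] {n : ℕ}

/-- A matrix commuting with `x yᵀ` has the eigenvector `x`. -/
theorem comm_vec (M : Matrix (Fin n) (Fin n) L) (x y : Fin n → L) (hy : y ≠ 0)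
    (h : M * Matrix.vecMulVec x y = Matrix.vecMulVec x y * M) : ∃ c : L, M *ᵥ x = c • x := by
  obtain ⟨b, hb⟩ : ∃ b, y b ≠ 0 := by
    by_contra hcon
    push Not at hcon
    exact hy (funext hcon)
  refine ⟨(∑ l, y l * M l b) / y b, ?_⟩
  funext a
  have h1 := congrFun (congrFun h a) b
  rw [Matrix.mul_apply, Matrix.mul_apply] at h1
  simp only [Matrix.vecMulVec_apply] at h1
  change ∑ j, M a j * x j = (∑ l, y l * M l b) / y b * x a
  have h3 : (∑ j, M a j * x j) * y b = ((∑ l, y l * M l b) / y b * x a) * y b := by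
    have h4 : (∑ l, y l * M l b) / y b * x a * y b = x a * ∑ l, y l * M l b := by
      field_simp
    rw [h4, Finset.sum_mul, Finset.mul_sum]
    have h5 : ∑ j, M a j * x j * y b = ∑ j, M a j * (x j * y b) := by
      refine Finset.sum_congr rfl fun j _ => ?_
      rw [mul_assoc]
    rw [h5, h1]
    refine Finset.sum_congr rfl fun j _ => ?_
    rw [mul_assoc]
  exact mul_right_cancel₀ hb h3

theorem vmv_mulVec (x y u : Fin n → L) : Matrix.vecMulVec x y *ᵥ u = (y ⬝ᵥ u) • x := by
  funext i
  rw [Pi.smul_apply, smul_eq_mul]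
  change ∑ j, Matrix.vecMulVec x y i j * u j = (∑ j, y j * u j) * x i
  rw [Finset.sum_mul]
  refine Finset.sum_congr rfl fun j _ => ?_
  rw [Matrix.vecMulVec_apply]
  ring

end vec

section indep

variable {K L : Type} [Field K] [Field L] [Algebra K L]

/-- The entries of a horizontal vector are linearly independent. -/
theorem indepC (DK : Der K) (DL : Der L)
    (hD : ∀ z, DL (algebraMap K L z) = algebraMap K L (DK z)) {n : ℕ}
    (B : Matrix (Fin n) (Fin n) K)
    (hirr : ∀ W : Submodule K (Fin n → K), (∀ u ∈ W, (fun i => DK (u i)) + B *ᵥ u ∈ W) →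
        W = ⊥ ∨ W = ⊤)
    (x : Fin n → L) (hx : ∀ a, DL (x a) = -∑ b, algebraMap K L (B a b) * x b) (hx0 : x ≠ 0)
    (z : Fin n → K) (hz : ∑ a, algebraMap K L (z a) * x a = 0) : z = 0 := by
  let V : Submodule K (Fin n → K) :=
    { carrier := {u | ∀ v : Fin n → K, ∑ a, algebraMap K L (v a) * x a = 0 → v ⬝ᵥ u = 0}
      zero_mem' := fun v _ => dotProduct_zero v
      add_mem' := fun {u w} hu hw v hv => by rw [dotProduct_add, hu v hv, hw v hv, add_zero]
      smul_mem' := fun c u hu v hv => by rw [dotProduct_smul, hu v hv, smul_zero] }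
  have hstab : ∀ u ∈ V, (fun i => DK (u i)) + B *ᵥ u ∈ V := by
    intro u hu v hv
    -- the derivative of `v`
    have hv1 : ∑ a, algebraMap K L (DK (v a) - ∑ b, B b a * v b) * x a = 0 := by
      have h1 := congrArg DL hv
      rw [map_sum, map_zero] at h1
      simp only [Derivation.leibniz, smul_eq_mul, hD, hx, Finset.sum_add_distrib] at h1
      simp only [map_sub, sub_mul, Finset.sum_sub_distrib, map_sum, map_mul]
      have h2 : ∑ a, (∑ b, algebraMap K L (B b a) * algebraMap K L (v b)) * x a =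
          ∑ a, algebraMap K L (v a) * ∑ b, algebraMap K L (B a b) * x b := by
        simp only [Finset.mul_sum, Finset.sum_mul]
        rw [Finset.sum_comm]
        refine Finset.sum_congr rfl fun a _ => Finset.sum_congr rfl fun b _ => ?_
        ring
      rw [h2]
      simp only [mul_neg, Finset.sum_neg_distrib] at h1
      have h3 : ∑ a, algebraMap K L (DK (v a)) * x a = ∑ a, x a * algebraMap K L (DK (v a)) := by
        refine Finset.sum_congr rfl fun a _ => ?_
        ring
      rw [h3]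
      linear_combination h1
    have h4 := hu _ hv1
    have h5 := congrArg DK (hu v hv)
    rw [map_zero] at h5
    have h6 : DK (v ⬝ᵥ u) = ∑ a, (v a * DK (u a) + u a * DK (v a)) := by
      change DK (∑ a, v a * u a) = _
      rw [map_sum]
      refine Finset.sum_congr rfl fun a _ => ?_
      rw [Derivation.leibniz, smul_eq_mul, smul_eq_mul]
    rw [h6] at h5
    change ∑ a, v a * (DK (u a) + ∑ b, B a b * u b) = 0
    change ∑ a, (DK (v a) - ∑ b, B b a * v b) * u a = 0 at h4
    simp only [sub_mul, Finset.sum_sub_distrib] at h4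
    simp only [mul_add, Finset.sum_add_distrib] at h5 ⊢
    have h7 : ∑ a, (∑ b, B b a * v b) * u a = ∑ a, v a * ∑ b, B a b * u b := by
      simp only [Finset.mul_sum, Finset.sum_mul]
      rw [Finset.sum_comm]
      refine Finset.sum_congr rfl fun a _ => Finset.sum_congr rfl fun b _ => ?_
      ring
    rw [h7] at h4
    have h8 : ∑ a, u a * DK (v a) = ∑ a, DK (v a) * u a := by
      refine Finset.sum_congr rfl fun a _ => ?_
      ring
    rw [h8] at h5
    linear_combination h5 - h4
  obtain ⟨a₀, ha₀⟩ : ∃ a, x a ≠ 0 := by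
    by_contra hcon
    push Not at hcon
    exact hx0 (funext hcon)
  obtain ⟨φ, hφ⟩ : ∃ φ : Module.Dual K L, φ (x a₀) ≠ 0 := by
    by_contra hcon
    push Not at hcon
    exact ha₀ ((Module.forall_dual_apply_eq_zero_iff K (x a₀)).1 hcon)
  have hφV : (fun a => φ (x a)) ∈ V := by
    intro v hv
    have h1 := congrArg φ hv
    rw [map_zero, map_sum] at h1
    change ∑ a, v a * φ (x a) = 0
    rw [← h1]
    refine Finset.sum_congr rfl fun a _ => ?_
    rw [← smul_eq_mul, ← φ.map_smul, Algebra.smul_def]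
  rcases hirr V hstab with h | h
  · exfalso
    rw [h, Submodule.mem_bot] at hφV
    exact hφ (congrFun hφV a₀)
  · funext a
    have h1 : (Pi.single a 1 : Fin n → K) ∈ V := by
      rw [h]
      trivial
    have h2 := h1 z hz
    rwa [dotProduct_single, mul_one] at h2

end indep

section form

variable {K L : Type} [Field K] [Field L] [Algebra K L] [CharZero K]

/-- The matrices `θ` with `x yᵀ θ + θ y xᵀ = 0`. -/
theorem noform (DK : Der K) (DL : Der L)
    (hD : ∀ z, DL (algebraMap K L z) = algebraMap K L (DK z)) {n : ℕ}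
    (B : Matrix (Fin n) (Fin n) K) (x y : Fin n → L)
    (hx : (fun a => DL (x a)) = -((B.map (algebraMap K L)) *ᵥ x))
    (hy : (fun a => DL (y a)) = (B.map (algebraMap K L))ᵀ *ᵥ y)
    (hx0 : x ≠ 0) (hy0 : y ≠ 0)
    (hxi : ∀ z : Fin n → K, ∑ a, algebraMap K L (z a) * x a = 0 → z = 0)
    (hyi : ∀ z : Fin n → K, ∑ a, algebraMap K L (z a) * y a = 0 → z = 0)
    (hs : ∀ (η : Matrix (Fin n) (Fin n) K) (c : L), η.map (algebraMap K L) *ᵥ x = c • x →
      ∃ q : K, η = Matrix.diagonal fun _ => q)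
    (θ : Matrix (Fin n) (Fin n) K)
    (hθ : Matrix.vecMulVec x y * θ.map (algebraMap K L) +
      θ.map (algebraMap K L) * (Matrix.vecMulVec x y)ᵀ = 0) (hθ0 : θ ≠ 0) :
    θᵀ = -θ ∧ θ.det ≠ 0 ∧ ∃ q : K, θ.map (fun u => DK u) + B * θ + θ * Bᵀ = q • θ := by
  set X := Matrix.vecMulVec x y with hX
  have hmapT : ∀ η : Matrix (Fin n) (Fin n) K, ηᵀ.map (algebraMap K L) =
      (η.map (algebraMap K L))ᵀ := fun η => rfl
  obtain ⟨i₀, hi₀⟩ : ∃ a, x a ≠ 0 := by
    by_contra hcon
    push Not at hcon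
    exact hx0 (funext hcon)
  have hcharL : CharZero L := charZero_of_injective_algebraMap (algebraMap K L).injective
  -- entries
  have hent : ∀ η : Matrix (Fin n) (Fin n) K, X * η.map (algebraMap K L) +
      η.map (algebraMap K L) * Xᵀ = 0 → ∀ i j,
      x i * (∑ l, algebraMap K L (η l j) * y l) + (∑ l, algebraMap K L (η i l) * y l) * x j = 0 := by
    intro η hη i j
    have h1 := congrFun (congrFun hη i) j
    rw [Matrix.add_apply, Matrix.mul_apply, Matrix.mul_apply, Matrix.zero_apply] at h1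
    rw [← h1, Finset.mul_sum, Finset.sum_mul]
    congr 1
    · refine Finset.sum_congr rfl fun l _ => ?_
      rw [hX, Matrix.vecMulVec_apply, Matrix.map_apply]
      ring
    · refine Finset.sum_congr rfl fun l _ => ?_
      rw [hX, Matrix.transpose_apply, Matrix.vecMulVec_apply, Matrix.map_apply]
      ring
  -- a matrix of `U` which kills `y`
  have hzero : ∀ η : Matrix (Fin n) (Fin n) K, (∀ i, ∑ l, algebraMap K L (η i l) * y l = 0) →
      η = 0 := by
    intro η hη
    ext1 i l
    exact congrFun (hyi (η i) (hη i)) l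
  have hsym : ∀ η : Matrix (Fin n) (Fin n) K, X * η.map (algebraMap K L) +
      η.map (algebraMap K L) * Xᵀ = 0 → ηᵀ = η → η = 0 := by
    intro η hη hηs
    have h1 := hent η hη
    have h2 : ∀ i j, η j i = η i j := fun i j => congrFun (congrFun hηs i) j
    have h3 : ∀ j, (∑ l, algebraMap K L (η l j) * y l) = ∑ l, algebraMap K L (η j l) * y l := by
      intro j
      refine Finset.sum_congr rfl fun l _ => ?_
      rw [h2 j l]
    have h4 : (∑ l, algebraMap K L (η i₀ l) * y l) = 0 := by
      have h5 := h1 i₀ i₀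
      rw [h3] at h5
      have h6 : 2 * (x i₀ * ∑ l, algebraMap K L (η i₀ l) * y l) = 0 := by linear_combination h5
      rcases mul_eq_zero.1 h6 with h7 | h7
      · exact absurd h7 two_ne_zero
      · exact (mul_eq_zero.1 h7).resolve_left hi₀
    refine hzero η fun j => ?_
    have h5 := h1 i₀ j
    rw [h3, h4, zero_mul, add_zero] at h5
    exact (mul_eq_zero.1 h5).resolve_left hi₀
  have hT : X * (θᵀ).map (algebraMap K L) + (θᵀ).map (algebraMap K L) * Xᵀ = 0 := by
    have h1 := congrArg Matrix.transpose hθ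
    rw [Matrix.transpose_add, Matrix.transpose_mul, Matrix.transpose_mul,
      Matrix.transpose_transpose, Matrix.transpose_zero] at h1
    rw [hmapT, add_comm]
    exact h1
  have halt : θᵀ = -θ := by
    have h1 : X * (θ + θᵀ).map (algebraMap K L) + (θ + θᵀ).map (algebraMap K L) * Xᵀ = 0 := by
      rw [Matrix.map_add _ (map_add _), Matrix.mul_add, Matrix.add_mul]
      have h2 : X * θ.map (algebraMap K L) + X * θᵀ.map (algebraMap K L) +
          (θ.map (algebraMap K L) * Xᵀ + θᵀ.map (algebraMap K L) * Xᵀ) =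
          (X * θ.map (algebraMap K L) + θ.map (algebraMap K L) * Xᵀ) +
          (X * θᵀ.map (algebraMap K L) + θᵀ.map (algebraMap K L) * Xᵀ) := by abel
      rw [h2, hθ, hT, add_zero]
    have h2 := hsym _ h1 (by rw [Matrix.transpose_add, Matrix.transpose_transpose, add_comm])
    rw [add_comm] at h2
    exact eq_neg_of_add_eq_zero_left h2
  -- `θ y = ρ x`
  have h1 := hent θ hθ
  have h2 : ∀ j, (∑ l, algebraMap K L (θ l j) * y l) = -∑ l, algebraMap K L (θ j l) * y l := by
    intro j
    rw [← Finset.sum_neg_distrib]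
    refine Finset.sum_congr rfl fun l _ => ?_
    have h3 : θ l j = -θ j l := congrFun (congrFun halt j) l
    rw [h3, map_neg]
    ring
  obtain ⟨ρ, hρ⟩ : ∃ ρ : L, ∀ j, ∑ l, algebraMap K L (θ j l) * y l = ρ * x j := by
    refine ⟨(∑ l, algebraMap K L (θ i₀ l) * y l) / x i₀, fun j => ?_⟩
    have h3 := h1 i₀ j
    rw [h2] at h3
    rw [div_mul_eq_mul_div, eq_div_iff hi₀]
    linear_combination -h3
  have hρ0 : ρ ≠ 0 := by
    intro h0
    apply hθ0
    refine hzero θ fun i => ?_
    rw [hρ, h0, zero_mul]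
  have hdet : θ.det ≠ 0 := by
    intro h0
    obtain ⟨z, hz0, hz⟩ := Matrix.exists_vecMul_eq_zero_iff.2 h0
    apply hz0
    apply hxi
    have h3 : ρ * ∑ a, algebraMap K L (z a) * x a = 0 := by
      rw [Finset.mul_sum]
      have h4 : ∑ a, ρ * (algebraMap K L (z a) * x a) =
          ∑ a, algebraMap K L (z a) * ∑ l, algebraMap K L (θ a l) * y l := by
        refine Finset.sum_congr rfl fun a _ => ?_
        rw [hρ]
        ring
      rw [h4]
      have h5 : ∑ a, algebraMap K L (z a) * ∑ l, algebraMap K L (θ a l) * y l =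
          ∑ l, algebraMap K L ((z ᵥ* θ) l) * y l := by
        simp only [Matrix.vecMul, dotProduct, map_sum, map_mul, Finset.mul_sum, Finset.sum_mul]
        rw [Finset.sum_comm]
        refine Finset.sum_congr rfl fun a _ => Finset.sum_congr rfl fun b _ => ?_
        ring
      rw [h5, hz]
      simp
    exact (mul_eq_zero.1 h3).resolve_left hρ0
  refine ⟨halt, hdet, ?_⟩
  -- the derivative of `X`
  set BL := B.map (algebraMap K L) with hBL
  set θL := θ.map (algebraMap K L) with hθL
  have hXD : X.map DL = X * BL - BL * X := by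
    ext1 i j
    rw [Matrix.map_apply, hX, Matrix.vecMulVec_apply, Derivation.leibniz, smul_eq_mul,
      smul_eq_mul, Matrix.sub_apply, Matrix.mul_apply, Matrix.mul_apply]
    have h3 : DL (x i) = -∑ b, BL i b * x b := congrFun hx i
    have h4 : DL (y j) = ∑ b, BL b j * y b := congrFun hy j
    rw [h3, h4, Finset.mul_sum, mul_neg, Finset.mul_sum, ← sub_eq_add_neg]
    congr 1
    · refine Finset.sum_congr rfl fun l _ => ?_
      rw [Matrix.vecMulVec_apply]
      ring
    · refine Finset.sum_congr rfl fun l _ => ?_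
      rw [Matrix.vecMulVec_apply]
      ring
  have hmulD : ∀ P Q : Matrix (Fin n) (Fin n) L, (P * Q).map DL = P.map DL * Q + P * Q.map DL := by
    intro P Q
    ext1 i j
    rw [Matrix.map_apply, Matrix.mul_apply, map_sum, Matrix.add_apply, Matrix.mul_apply,
      Matrix.mul_apply, ← Finset.sum_add_distrib]
    refine Finset.sum_congr rfl fun l _ => ?_
    rw [Derivation.leibniz, smul_eq_mul, smul_eq_mul, Matrix.map_apply, Matrix.map_apply]
    ring
  have hTD : Xᵀ.map DL = (X.map DL)ᵀ := rfl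
  have hθD : θL.map DL = (θ.map (fun u => DK u)).map (algebraMap K L) := by
    ext1 i j
    rw [hθL, Matrix.map_apply, Matrix.map_apply, Matrix.map_apply, Matrix.map_apply, hD]
  set θ₁ := θ.map (fun u => DK u) + B * θ + θ * Bᵀ with hθ₁
  have hθ₁L : θ₁.map (algebraMap K L) = θL.map DL + BL * θL + θL * BLᵀ := by
    rw [hθD, hθ₁, Matrix.map_add _ (map_add _), Matrix.map_add _ (map_add _), Matrix.map_mul,
      Matrix.map_mul]
    rfl
  have hder : X.map DL * θL + X * θL.map DL + (θL.map DL * Xᵀ + θL * (X.map DL)ᵀ) = 0 := by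
    have h3 : (X * θL + θL * Xᵀ).map DL = (0 : Matrix (Fin n) (Fin n) L).map DL :=
      congrArg (fun P : Matrix (Fin n) (Fin n) L => P.map DL) hθ
    rw [Matrix.map_add _ (map_add _), hmulD, hmulD, hTD, Matrix.map_zero _ (map_zero _)] at h3
    exact h3
  have hθ₁U : X * θ₁.map (algebraMap K L) + θ₁.map (algebraMap K L) * Xᵀ = 0 := by
    rw [hθ₁L]
    have h3 : X * (θL.map DL + BL * θL + θL * BLᵀ) + (θL.map DL + BL * θL + θL * BLᵀ) * Xᵀ =
        (X.map DL * θL + X * θL.map DL + (θL.map DL * Xᵀ + θL * (X.map DL)ᵀ)) +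
        (BL * (X * θL + θL * Xᵀ) + (X * θL + θL * Xᵀ) * BLᵀ) := by
      rw [hXD, Matrix.transpose_sub, Matrix.transpose_mul, Matrix.transpose_mul]
      noncomm_ring
    rw [h3, hder, hθ]
    simp
  -- `θ₁ θ⁻¹` commutes with `X`
  have hinv : θ * θ⁻¹ = 1 := Matrix.mul_nonsing_inv θ (isUnit_iff_ne_zero.2 hdet)
  have hinv' : θ⁻¹ * θ = 1 := Matrix.nonsing_inv_mul θ (isUnit_iff_ne_zero.2 hdet)
  set ψ := (θ⁻¹).map (algebraMap K L) with hψ
  have hone : (1 : Matrix (Fin n) (Fin n) K).map (algebraMap K L) = 1 :=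
    Matrix.map_one _ (map_zero _) (map_one _)
  have hψ1 : θL * ψ = 1 := by
    rw [hθL, hψ, ← Matrix.map_mul, hinv, hone]
  have hψ2 : ψ * θL = 1 := by
    rw [hθL, hψ, ← Matrix.map_mul, hinv', hone]
  have hXT : Xᵀ = -(ψ * X * θL) := by
    have h3 : X * θL = -(θL * Xᵀ) := eq_neg_of_add_eq_zero_left hθ
    rw [Matrix.mul_assoc, h3, Matrix.mul_neg, neg_neg, ← Matrix.mul_assoc, hψ2, Matrix.one_mul]
  have hcomm : (θ₁ * θ⁻¹).map (algebraMap K L) * X = X * (θ₁ * θ⁻¹).map (algebraMap K L) := by
    rw [Matrix.map_mul]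
    have h3 : X * θ₁.map (algebraMap K L) = θ₁.map (algebraMap K L) * (ψ * X * θL) := by
      have h4 := eq_neg_of_add_eq_zero_left hθ₁U
      rw [h4, hXT, Matrix.mul_neg, neg_neg]
    rw [← Matrix.mul_assoc, h3]
    rw [Matrix.mul_assoc _ (ψ * X * θL), Matrix.mul_assoc (ψ * X), hψ1, Matrix.mul_one,
      Matrix.mul_assoc]
  obtain ⟨c, hc⟩ := comm_vec _ x y hy0 hcomm
  obtain ⟨q, hq⟩ := hs (θ₁ * θ⁻¹) c hc
  refine ⟨q, ?_⟩
  have h3 : θ₁ = (θ₁ * θ⁻¹) * θ := by rw [Matrix.mul_assoc, hinv', Matrix.mul_one]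
  rw [h3, hq]
  ext1 i j
  rw [Matrix.diagonal_mul, Matrix.smul_apply, smul_eq_mul]

end form

end Pool.Agent.Helper12.CX
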