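import Pool.Agent.Helper62.CX.Stm
import Pool.Agent.Helper12.BW.Strong
import Pool.Agent.Helper12.CX.Form

/-!
# Irreducible connections without forms are strong (package C_Strong)
-/

set_option autoImplicit false

open Polynomial Matrix Finset

namespace Pool.Agent.Helper12.CX

open Pool.Agent.Helper62.BM Pool.Agent.Helper62.BW Pool.Agent.Helper62.CX Pool.Agent.Helper12.BM
  Pool.Agent.Helper12.BW

theorem CW_ne {k : Type} [Field k] {n : ℕ} (D : Cdat k n) (h : D.Ok) : D.W ≠ 0 := by
  intro h0
  have hw : D.w.eval D.c ≠ 0 := h.1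
  have hw0 : D.w ≠ 0 := fun h1 => hw (by rw [h1, eval_zero])
  exact mul_ne_zero (X_sub_C_ne_zero D.c) hw0 h0

theorem c_strong : C_Strong := by
  intro k _ _ n hn D hOk hIrr hcase x y hx hy hxc hyc
  obtain ⟨ow, oμ, oκ, oe, or', oer, o6⟩ := hOk
  have hW : D.W ≠ 0 := CW_ne D ⟨ow, oμ, oκ, oe, or', oer, o6⟩
  let _ : Algebra (KX k) (LS k) := (emb k D.c).toAlgebra
  have halg : ∀ z : KX k, algebraMap (KX k) (LS k) z = emb k D.c z := fun z => rfl
  have hD : ∀ z, DL k (algebraMap (KX k) (LS k) z) = algebraMap (KX k) (LS k) (derK k z) :=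
    fun z => DL_emb k D.c z
  set a' : PowerSeries k →+* LS k := algebraMap (PowerSeries k) (LS k) with ha'
  have ha'inj : Function.Injective a' := IsFractionRing.injective (PowerSeries k) (LS k)
  have hWt : a' (tay D.c D.W) ≠ 0 := by
    intro h0
    exact hW (tay_inj D.c (ha'inj (by rw [h0, map_zero, map_zero])))
  have hB : ∀ i j, algebraMap (KX k) (LS k) (D.B i j) * a' (tay D.c D.W) =
      a' (tay D.c (D.M i j)) := by
    intro i j
    have : D.B i j = ι k (D.M i j) * (ι k D.W)⁻¹ := rfl
    rw [halg, this, map_mul, map_inv₀, emb_ι, emb_ι, mul_assoc, inv_mul_cancel₀ hWt, mul_one]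
  set xL : Fin n → LS k := fun a => a' (x a) with hxL
  set yL : Fin n → LS k := fun a => a' (y a) with hyL
  have hxD : ∀ a, DL k (xL a) = -∑ b, algebraMap (KX k) (LS k) (D.B a b) * xL b := by
    intro a
    have h1 := congrArg a' (hx a)
    rw [map_add, map_mul, map_sum, map_zero] at h1
    have h2 : a' (tay D.c D.W) * DL k (xL a) =
        a' (tay D.c D.W) * -∑ b, algebraMap (KX k) (LS k) (D.B a b) * xL b := by
      have h3 : a' (tay D.c D.W) * ∑ b, algebraMap (KX k) (LS k) (D.B a b) * xL b =
          ∑ b, a' (tay D.c (D.M a b) * x b) := by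
        rw [Finset.mul_sum]
        refine Finset.sum_congr rfl fun b _ => ?_
        rw [map_mul, ← hB]
        ring
      rw [mul_neg, h3, DL_alg]
      linear_combination h1
    exact mul_left_cancel₀ hWt h2
  have hyD : ∀ a, DL k (yL a) = ∑ b, algebraMap (KX k) (LS k) (D.B b a) * yL b := by
    intro a
    have h1 := congrArg a' (hy a)
    rw [map_mul, map_sum] at h1
    have h2 : a' (tay D.c D.W) * DL k (yL a) =
        a' (tay D.c D.W) * ∑ b, algebraMap (KX k) (LS k) (D.B b a) * yL b := by
      have h3 : a' (tay D.c D.W) * ∑ b, algebraMap (KX k) (LS k) (D.B b a) * yL b =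
          ∑ b, a' (tay D.c (D.M b a) * y b) := by
        rw [Finset.mul_sum]
        refine Finset.sum_congr rfl fun b _ => ?_
        rw [map_mul, ← hB]
        ring
      rw [h3, DL_alg]
      exact h1
    exact mul_left_cancel₀ hWt h2
  have hxD' : (fun a => DL k (xL a)) = -((D.B.map (algebraMap (KX k) (LS k))) *ᵥ xL) := by
    funext a
    rw [hxD a]
    rfl
  have hyD' : (fun a => DL k (yL a)) = (D.B.map (algebraMap (KX k) (LS k)))ᵀ *ᵥ yL := by
    funext a
    rw [hyD a]
    rfl
  have hxL0 : xL ≠ 0 := by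
    intro h0
    apply or'
    funext a
    rw [← hxc a]
    have h1 : a' (x a) = 0 := congrFun h0 a
    rw [ha'inj (h1.trans (map_zero a').symm), map_zero]
    rfl
  have hyL0 : yL ≠ 0 := by
    intro h0
    apply oe
    funext a
    rw [← hyc a]
    have h1 : a' (y a) = 0 := congrFun h0 a
    rw [ha'inj (h1.trans (map_zero a').symm), map_zero]
    rfl
  have hirrK : ∀ V : Submodule (KX k) (Fin n → KX k),
      (∀ u ∈ V, (fun i => derK k (u i)) + D.B *ᵥ u ∈ V) → V = ⊥ ∨ V = ⊤ := by
    intro V hV
    refine hIrr (KX k) (derK k) (fun q => ?_) V (fun u hu => ?_)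
    · rw [Algebra.algebraMap_self, RingHom.id_apply, RingHom.id_apply, derK_ι]
    · have h2 : D.B.map (algebraMap (KX k) (KX k)) = D.B := by
        ext i j
        rfl
      rw [h2]
      exact hV u hu
  have hxi : ∀ z : Fin n → KX k, ∑ a, algebraMap (KX k) (LS k) (z a) * xL a = 0 → z = 0 :=
    fun z hz => indepC (derK k) (DL k) hD D.B hirrK xL hxD hxL0 z hz
  have hyi : ∀ z : Fin n → KX k, ∑ a, algebraMap (KX k) (LS k) (z a) * yL a = 0 → z = 0 :=
    fun z hz => indep (derK k) (DL k) hD D.B hirrK yL hyD hyL0 z hz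
  have hschur : ∀ (η : Matrix (Fin n) (Fin n) (KX k)) (c : LS k),
      η.map (algebraMap (KX k) (LS k)) *ᵥ xL = c • xL →
      ∃ q : KX k, η = Matrix.diagonal fun _ => q := by
    intro η c hη
    exact schur (derK k) (DL k) hD D.B
      (fun δ hδ V hV => hIrr (algebraicClosure (KX k) (LS k)) δ (fun q => by
        rw [hδ, derK_ι]) V hV) xL hxD' hxL0 η c hη
  have hι : Function.Injective (ι k) := IsFractionRing.injective k[X] (KX k)
  refine ⟨?_, ?_, ?_, ?_⟩
  · intro z hz
    have h1 := hyi (fun a => ι k (z a)) (by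
      have h4 := congrArg a' hz
      rw [map_sum, map_zero] at h4
      rw [← h4]
      refine Finset.sum_congr rfl fun a _ => ?_
      rw [map_mul, halg, emb_ι])
    funext a
    have h5 : ι k (z a) = 0 := congrFun h1 a
    exact hι (h5.trans (map_zero _).symm)
  · intro z hz
    have h1 := hxi (fun a => ι k (z a)) (by
      have h4 := congrArg a' hz
      rw [map_sum, map_zero] at h4
      rw [← h4]
      refine Finset.sum_congr rfl fun a _ => ?_
      rw [map_mul, halg, emb_ι])
    funext a
    have h5 : ι k (z a) = 0 := congrFun h1 a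
    exact hι (h5.trans (map_zero _).symm)
  · intro θ hθ
    have hcomm : (θ.map (ι k)).map (algebraMap (KX k) (LS k)) * Matrix.vecMulVec xL yL =
        Matrix.vecMulVec xL yL * (θ.map (ι k)).map (algebraMap (KX k) (LS k)) := by
      ext1 a b
      have h1 := congrFun (congrFun hθ a) b
      rw [Matrix.mul_apply, Matrix.mul_apply] at h1 ⊢
      have h2 := congrArg a' h1
      rw [map_sum, map_sum] at h2
      have h3 : ∀ i j, (θ.map (ι k)).map (algebraMap (KX k) (LS k)) i j =
          a' (tay D.c (θ i j)) := by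
        intro i j
        rw [Matrix.map_apply, Matrix.map_apply, halg, emb_ι]
      have h4 : ∑ j, (θ.map (ι k)).map (algebraMap (KX k) (LS k)) a j *
          Matrix.vecMulVec xL yL j b = ∑ j, a' (θ.map (tay D.c) a j * Matrix.vecMulVec x y j b) := by
        refine Finset.sum_congr rfl fun j _ => ?_
        rw [h3, map_mul, Matrix.vecMulVec_apply, Matrix.vecMulVec_apply, map_mul]
        rfl
      have h5 : ∑ j, Matrix.vecMulVec xL yL a j *
          (θ.map (ι k)).map (algebraMap (KX k) (LS k)) j b =
          ∑ j, a' (Matrix.vecMulVec x y a j * θ.map (tay D.c) j b) := by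
        refine Finset.sum_congr rfl fun j _ => ?_
        rw [h3, map_mul, Matrix.vecMulVec_apply, Matrix.vecMulVec_apply, map_mul]
        rfl
      rw [h4, h5]
      exact h2
    obtain ⟨c, hc⟩ := comm_vec _ xL yL hyL0 hcomm
    obtain ⟨q, hq⟩ := hschur (θ.map (ι k)) c hc
    have hent : ∀ i j, ι k (θ i j) = if i = j then q else 0 := by
      intro i j
      have h1 := congrFun (congrFun hq i) j
      rw [Matrix.map_apply, Matrix.diagonal_apply] at h1
      exact h1
    let i₀ : Fin n := ⟨0, by omega⟩
    refine ⟨θ i₀ i₀, ?_⟩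
    ext1 i j
    apply hι
    rw [hent i j, Matrix.diagonal_apply]
    split_ifs with h
    · have h2 := hent i₀ i₀
      rw [if_pos rfl] at h2
      exact h2.symm
    · rw [map_zero]
  · intro hn3 θ hθ
    by_contra hθ0
    have hθK0 : θ.map (ι k) ≠ 0 := by
      intro h0
      apply hθ0
      ext1 i j
      apply hι
      have h1 := congrFun (congrFun h0 i) j
      rw [Matrix.map_apply] at h1
      rw [h1]
      exact (map_zero _).symm
    have hU : Matrix.vecMulVec xL yL * (θ.map (ι k)).map (algebraMap (KX k) (LS k)) +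
        (θ.map (ι k)).map (algebraMap (KX k) (LS k)) * (Matrix.vecMulVec xL yL)ᵀ = 0 := by
      ext1 a b
      have h1 := congrFun (congrFun hθ a) b
      rw [Matrix.add_apply, Matrix.mul_apply, Matrix.mul_apply, Matrix.zero_apply] at h1 ⊢
      have h2 := congrArg a' h1
      rw [map_add, map_sum, map_sum, map_zero] at h2
      have h3 : ∀ i j, (θ.map (ι k)).map (algebraMap (KX k) (LS k)) i j =
          a' (tay D.c (θ i j)) := by
        intro i j
        rw [Matrix.map_apply, Matrix.map_apply, halg, emb_ι]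
      have h4 : ∑ j, (θ.map (ι k)).map (algebraMap (KX k) (LS k)) a j *
          (Matrix.vecMulVec xL yL)ᵀ j b =
          ∑ j, a' (θ.map (tay D.c) a j * (Matrix.vecMulVec x y)ᵀ j b) := by
        refine Finset.sum_congr rfl fun j _ => ?_
        rw [h3, map_mul, Matrix.transpose_apply, Matrix.transpose_apply, Matrix.vecMulVec_apply,
          Matrix.vecMulVec_apply, map_mul]
        rfl
      have h5 : ∑ j, Matrix.vecMulVec xL yL a j *
          (θ.map (ι k)).map (algebraMap (KX k) (LS k)) j b =
          ∑ j, a' (Matrix.vecMulVec x y a j * θ.map (tay D.c) j b) := by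
        refine Finset.sum_congr rfl fun j _ => ?_
        rw [h3, map_mul, Matrix.vecMulVec_apply, Matrix.vecMulVec_apply, map_mul]
        rfl
      rw [h4, h5]
      exact h2
    obtain ⟨f1, f2, q, f3⟩ := noform (derK k) (DL k) hD D.B xL yL hxD' hyD' hxL0 hyL0 hxi hyi
      hschur (θ.map (ι k)) hU hθK0
    rcases hcase with h | h | h
    · omega
    · apply f2
      have h1 := congrArg Matrix.det f1
      rw [Matrix.det_transpose, Matrix.det_neg, Fintype.card_fin, h.neg_one_pow] at h1
      have h2 : 2 * (θ.map (ι k)).det = 0 := by linear_combination h1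
      exact (mul_eq_zero.1 h2).resolve_left two_ne_zero
    · apply hθK0
      refine h (KX k) (derK k) (fun q => ?_) (θ.map (ι k)) f1 ⟨q, ?_⟩
      · rw [Algebra.algebraMap_self, RingHom.id_apply, RingHom.id_apply, derK_ι]
      · have h2 : D.B.map (algebraMap (KX k) (KX k)) = D.B := by
          ext i j
          rfl
        rw [h2]
        exact f3

end Pool.Agent.Helper12.CX
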